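import Pool.Agent.J4H77.RK.Ws

/-!
# The analytic ranks over `𝔽_q(t)` of all equations of bounded height

Let `F` be a finite field of odd characteristic with `q` elements, and `k = F(t)`. The height of a rational
function `x = c / d` in lowest terms is `q ^ max (deg c, deg d)`. We consider exactly the family of the problem:
the nonsingular Weierstrass equations

  `y² + a₁ x y + a₃ y = x³ + a₂ x² + a₄ x + a₆`,   `a_i ∈ k` any rational functions of height at most `B = q ^ n`,

in all odd characteristics (the family `S_B` of the problem in characteristic `3`), and the short ones,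
`a₁ = a₂ = a₃ = 0`, that is `y² = x³ + a x + b` (the family `S_B` of the problem in characteristic `≥ 5`).
The proportion of the equations of analytic rank at least `R` (hence also of those of rank at least `R`) is at most
`K R^(-k R)` with absolute constants `k, K > 0`: for ALL `q`, `n`, `R`. In particular the average analytic rank
over `S_B` is at most an absolute constant for all `q` and all `B`.

The same holds on every line: fix four of the five coefficients, of heights at most `q ^ (κ n)`, and let the
fifth, ANY of the five, run over all the rational functions of height at most `q ^ n` (`k, K` depend on `κ`).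
Moreover the number of the reciprocal zeros of the `L`-function in a disc around ANY point `q z`, `|z| = 1`, of the
circle, of the size of the mean distance of the zeros, has the same tail.

Proof: fix the denominator `d` of the coefficient that varies. After multiplication by the powers of
the product of the denominators the equation is integral and its completed square is a family which
is quadratic in the numerator, and for such families the moments are computed in `OneParameterFamilies`. The
rational functions of height at most `q ^ n` are counted by means of their denominators, and at most three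
values of `a₄` make the discriminant vanish when the other coefficients are fixed.
-/

set_option autoImplicit false

namespace Pool.Agent.Results.MP_81dc49_nt.HeightOrdering

open Polynomial

/-- The logarithm to the base `q` of the height of the rational function `x`: the maximum of the degrees of
the numerator and of the denominator in lowest terms. -/
noncomputable def height {F : Type} [Field F] (x : RatFunc F) : ℕ := max x.num.natDegree x.denom.natDegree

/-- The Weierstrass equation with the coefficients `a = (a₁, a₂, a₃, a₄, a₆)`. -/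
def curve {R : Type} (a : Fin 5 → R) : WeierstrassCurve R := ⟨a 0, a 1, a 2, a 3, a 4⟩

/-- The weights of the coefficients. -/
def weight : Fin 5 → ℕ := ![1, 2, 3, 4, 6]

/-- The coefficients `u ^ i a_i ∈ F[t]` of an isomorphic curve, `u` the product of the denominators of the
coefficients `a_i`. (A rational function which is a polynomial is equal to its numerator.) -/
noncomputable def integral {F : Type} [Field F] (a : Fin 5 → RatFunc F) : Fin 5 → F[X] :=
  fun i => ((algebraMap F[X] (RatFunc F) (∏ j, (a j).denom)) ^ weight i * a i).num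

/-- The affine points of the equation `W` over the residue ring `F[t] ⧸ P`. -/
def affinePoints {F : Type} [Field F] (W : WeierstrassCurve F[X]) (P : F[X]) :
    Set ((F[X] ⧸ Ideal.span {P}) × (F[X] ⧸ Ideal.span {P})) :=
  {z | (W.map (Ideal.Quotient.mk (Ideal.span {P}))).toAffine.Equation z.1 z.2}

/-- The trace of Frobenius at the place `P`: there is one point at infinity, and the trace is `q_P + 1` minus the
number of all points. -/
noncomputable def frobeniusTrace {F : Type} [Field F] (W : WeierstrassCurve F[X]) (P : F[X]) : ℝ :=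
  (Nat.card F : ℝ) ^ P.natDegree - (affinePoints W P).ncard

/-- The monic irreducible polynomials of degree `e` outside a finite set. -/
def goodPlaces {F : Type} [Field F] (bad : Finset F[X]) (e : ℕ) : Set F[X] :=
  {P | P.Monic ∧ Irreducible P ∧ P.natDegree = e ∧ P ∉ bad}

/-- The eigenvalues of Frobenius attached to the elliptic curve `W` over `F(t)`. The product of the inverses
of the local polynomials of `W` over the finite places outside `bad` (the primes of bad reduction of the
equation) is the polynomial `∏ (1 - α i T) ∏ (1 - β j T)`, where the `α i` are the reciprocal zeros of the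
`L`-function (eigenvalues of weight two) and the `β j` come from the remaining places. The logarithmic
derivative of this identity is the trace formula `formula`. -/
structure FrobeniusData {F : Type} [Field F] (W : WeierstrassCurve F[X]) (K : ℝ) where
  /-- the number of the eigenvalues of weight two -/
  D : ℕ
  /-- the eigenvalues of weight two: the reciprocal zeros of the `L`-function -/
  α : Fin D → ℂ
  /-- the number of the other eigenvalues -/
  D' : ℕ
  /-- the other eigenvalues -/
  β : Fin D' → ℂ
  /-- the places of bad reduction -/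
  bad : Finset F[X]
  /-- the eigenvalues of Frobenius at the good places -/
  loc : F[X] → Fin 2 → ℂ
  size : (D : ℝ) ≤ K ∧ (D' : ℝ) ≤ K ∧ ∑ P ∈ bad, (P.natDegree : ℝ) ≤ K
  norm_α : ∀ i, ‖α i‖ = Nat.card F
  norm_β : ∀ j, ‖β j‖ ≤ √(Nat.card F)
  norm_loc : ∀ P, P.Monic → Irreducible P → P ∉ bad → ∀ i, ‖loc P i‖ ≤ √(Nat.card F) ^ P.natDegree
  sum_loc : ∀ P, P.Monic → Irreducible P → P ∉ bad → ∑ i, loc P i = (frobeniusTrace W P : ℂ)
  formula : ∀ n : ℕ, 1 ≤ n → ∑ i, α i ^ n + ∑ j, β j ^ n =
    -∑ e ∈ n.divisors, ∑ᶠ P ∈ goodPlaces bad e, (e : ℂ) * ∑ i, loc P i ^ (n / e)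

/-- The equations of `S` such that `q` is a reciprocal zero of multiplicity at least `R` of the `L`-function
over `F(t)`, that is: the analytic rank is at least `R`. (If all the coefficients have height at most `q ^ h`,
then `integral a` has coefficients of degree at most `6 h`, `12 h`, ..., `36 h` and a discriminant of degree at
most `72 h`, which bounds the number of the eigenvalues and the degree of the bad places by `150 h`.) -/
def largeRank {F : Type} [Field F] (S : Set (Fin 5 → RatFunc F)) (h : ℝ) (R : ℕ) :
    Set (Fin 5 → RatFunc F) :=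
  {a | a ∈ S ∧ ∃ E : FrobeniusData (curve (integral a)) (150 * h), R ≤ {i | E.α i = Nat.card F}.ncard}

/-- The equations of `S` such that at least `R` reciprocal zeros of the `L`-function lie in the disc with centre
`q z` and radius `q / N`. -/
def manyZeros {F : Type} [Field F] (S : Set (Fin 5 → RatFunc F)) (h : ℝ) (N : ℕ) (z : ℂ) (R : ℕ) :
    Set (Fin 5 → RatFunc F) :=
  {a | a ∈ S ∧ ∃ E : FrobeniusData (curve (integral a)) (150 * h),
    R ≤ {i | ‖E.α i / Nat.card F - z‖ ≤ 1 / N}.ncard}

/-- The nonsingular Weierstrass equations with coefficients of height at most `q ^ n`. -/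
def longForms (F : Type) [Field F] (n : ℕ) : Set (Fin 5 → RatFunc F) :=
  {a | (∀ i, height (a i) ≤ n) ∧ (curve a).Δ ≠ 0}

/-- The nonsingular equations `y² = x³ + a₄ x + a₆` with `a₄` and `a₆` of height at most `q ^ n`. -/
def shortForms (F : Type) [Field F] (n : ℕ) : Set (Fin 5 → RatFunc F) :=
  {a | a ∈ longForms F n ∧ a 0 = 0 ∧ a 1 = 0 ∧ a 2 = 0}

/-- The equations whose `i`-th coefficient is any rational function of height at most `q ^ n`, and whose other
coefficients are those of `a`. -/
def line {F : Type} [Field F] (a : Fin 5 → RatFunc F) (i : Fin 5) (n : ℕ) : Set (Fin 5 → RatFunc F) :=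
  {b | height (b i) ≤ n ∧ ∀ j ≠ i, b j = a j}

open Pool.Agent.J4H77.RK Pool.Agent.J4H77.RK.Wm Pool.Agent.J4H77.RK.Wr Pool.Agent.J4H77.RK.Ws
open Pool.Agent.J4H77.RK.Ht Pool.Agent.N430.RT

lemma integral_eq {F : Type} [Field F] (a : Fin 5 → RatFunc F) : integral a = mdl a := rfl

/-- the translation of the data -/
noncomputable def FrobeniusData.toED {F : Type} [Field F] [Fintype F] (h2 : (2 : F) ≠ 0) {a : Fin 5 → F[X]}
    {K : ℝ} (E : FrobeniusData (curve a) K) : ED (sqv a) 0 0 2 K where
  D := E.D
  α := E.α
  D' := E.D'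
  β := E.β
  bad := E.bad
  loc := E.loc
  hD := E.size.1
  hD' := E.size.2.1
  hbad := E.size.2.2
  hα := fun i => by rw [E.norm_α i, Nat.card_eq_fintype_card]
  hβ := fun j => by
    have := E.norm_β j
    rwa [Nat.card_eq_fintype_card] at this
  hloc := fun P h1 h2 h3 i => by
    have := E.norm_loc P h1 h2 h3 i
    rwa [Nat.card_eq_fintype_card] at this
  htr := fun P h1 h3 h4 => by
    rw [E.sum_loc P h1 h3 h4]
    have e : (affinePoints (curve a) P).ncard = (pset (sqv a) 0 0 P).ncard := ncard_eq h2 a P
    unfold frobeniusTrace trP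
    rw [Nat.card_eq_fintype_card, e]
  hform := fun n hn => by
    classical
    rw [E.formula n hn]
    congr 1
    refine Finset.sum_congr rfl fun e _ => ?_
    have h1 : goodPlaces E.bad e =
        (((Pool.Agent.N430.BP.FF.IR F e).filter (· ∉ E.bad) : Finset F[X]) : Set F[X]) := by
      ext P
      unfold goodPlaces
      rw [Finset.mem_coe, Finset.mem_filter, Pool.Agent.N430.BP.FF.mem_IR]
      constructor
      · rintro ⟨a, b, c, d⟩
        exact ⟨⟨a, b, c⟩, d⟩
      · rintro ⟨⟨a, b, c⟩, d⟩
        exact ⟨a, b, c, d⟩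
    rw [h1, finsum_mem_coe_finset]

/-- the data with a finite set of zeros -/
lemma data_of {F : Type} [Field F] [Fintype F] (h2 : (2 : F) ≠ 0) {a : Fin 5 → F[X]} {K : ℝ} {N : ℕ} {z : ℂ}
    {R : ℕ} (h : ∃ E : FrobeniusData (curve a) K, R ≤ {i | ‖E.α i / Nat.card F - z‖ ≤ 1 / N}.ncard) :
    ∃ (E : ED (sqv a) 0 0 2 K) (S : Finset (Fin E.D)),
      (∀ l ∈ S, ‖E.α l / (Fintype.card F : ℂ) - z‖ ≤ 1 / (N : ℝ)) ∧ R ≤ S.card := by
  classical
  obtain ⟨E, hE⟩ := h
  refine ⟨E.toED h2, Finset.univ.filter fun i => ‖E.α i / Nat.card F - z‖ ≤ 1 / N, fun i hi => ?_, ?_⟩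
  · have := (Finset.mem_filter.1 hi).2
    rwa [Nat.card_eq_fintype_card] at this
  · have e : {i | ‖E.α i / Nat.card F - z‖ ≤ 1 / N} = ((Finset.univ.filter fun i =>
        ‖E.α i / Nat.card F - z‖ ≤ 1 / N : Finset (Fin E.D)) : Set (Fin E.D)) := by
      ext i
      simp
    rw [e, Set.ncard_coe_finset] at hE
    exact hE

lemma large_sub {F : Type} [Field F] [Finite F] (S : Set (Fin 5 → RatFunc F)) (h : ℝ) (N R : ℕ) :
    largeRank S h R ⊆ manyZeros S h N 1 R := by
  rintro a ⟨ha, E, hE⟩
  refine ⟨ha, E, hE.trans (Set.ncard_le_ncard (fun i hi => ?_) (Set.toFinite _))⟩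
  have hi' : E.α i = Nat.card F := hi
  have hq : (Nat.card F : ℂ) ≠ 0 := by
    exact_mod_cast Nat.card_pos.ne'
  rw [Set.mem_ofPred_eq, hi', div_self hq, sub_self, norm_zero]
  positivity

/-- **The tail of the analytic ranks in the family of all equations of bounded height.** -/
theorem result :
    (∀ κ : ℝ, 1 ≤ κ → ∃ k K : ℝ, 0 < k ∧ 0 < K ∧
      ∀ (F : Type) [Field F] [Finite F], ringChar F ≠ 2 → ∀ n : ℕ, 1 ≤ n →
      ∀ a : Fin 5 → RatFunc F, (∀ j, (height (a j) : ℝ) ≤ κ * n) → ∀ i : Fin 5,
        (line a i n).Finite ∧ ∀ R : ℕ, 1 ≤ R →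
          ((largeRank (line a i n) (κ * n) R).ncard : ℝ) ≤
            K * (R : ℝ) ^ (-(k * R)) * ((line a i n).ncard : ℝ) ∧
          ∀ z : ℂ, ‖z‖ = 1 → ((manyZeros (line a i n) (κ * n) (n + 1) z R).ncard : ℝ) ≤
            K * (R : ℝ) ^ (-(k * R)) * ((line a i n).ncard : ℝ)) ∧
    ∃ k K : ℝ, 0 < k ∧ 0 < K ∧
      ∀ (F : Type) [Field F] [Finite F], ringChar F ≠ 2 → ∀ n : ℕ, 1 ≤ n →
      ∀ S : Set (Fin 5 → RatFunc F), (S = longForms F n ∨ S = shortForms F n) →
        S.Finite ∧
        (∀ R : ℕ, 1 ≤ R →
          ((largeRank S n R).ncard : ℝ) ≤ K * (R : ℝ) ^ (-(k * R)) * (S.ncard : ℝ) ∧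
          ∀ z : ℂ, ‖z‖ = 1 → ((manyZeros S n (n + 1) z R).ncard : ℝ) ≤
            K * (R : ℝ) ^ (-(k * R)) * (S.ncard : ℝ)) ∧
        ∀ M : ℕ, ∑ R ∈ Finset.Icc 1 M, ((largeRank S n R).ncard : ℝ) ≤ K * (S.ncard : ℝ) := by
  classical
  refine ⟨?_, ?_⟩
  · intro κ hκ
    obtain ⟨k, K, hk, hK, h⟩ := fiber hκ
    refine ⟨k, K, hk, hK, fun F _ _ h2 n hn a ha i => ?_⟩
    have : Fintype F := Fintype.ofFinite F
    have h2F : (2 : F) ≠ 0 := Ring.two_ne_zero h2
    -- the line is the image of the box
    have hline : line a i n = (fun s => Function.update a i s) '' {x : RatFunc F | hgt x ≤ n} := by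
      ext b
      constructor
      · rintro ⟨h3, h4⟩
        refine ⟨b i, h3, ?_⟩
        funext j
        by_cases hj : j = i
        · subst hj
          simp
        · simp only [Function.update_of_ne hj]
          exact (h4 j hj).symm
      · rintro ⟨s, hs, rfl⟩
        refine ⟨?_, fun j hj => ?_⟩
        · simp only [Function.update_self]
          exact hs
        · simp only [Function.update_of_ne hj]
    have hinj : Function.Injective (fun s : RatFunc F => Function.update a i s) :=
      Function.update_injective a i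
    have hfin : (line a i n).Finite := by
      rw [hline]
      exact (box_fin n).image _
    have hcard : (line a i n).ncard = ({x : RatFunc F | hgt x ≤ n}).ncard := by
      rw [hline, Set.ncard_image_of_injective _ hinj]
    refine ⟨hfin, fun R hR => ?_⟩
    have hz : ∀ z : ℂ, ‖z‖ = 1 → ((manyZeros (line a i n) (κ * n) (n + 1) z R).ncard : ℝ) ≤
        K * (R : ℝ) ^ (-(k * R)) * ((line a i n).ncard : ℝ) := by
      intro z hz
      set T : Set (RatFunc F) := {s | Function.update a i s ∈ manyZeros (line a i n) (κ * n) (n + 1) z R}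
        with hT
      have hTe : manyZeros (line a i n) (κ * n) (n + 1) z R = (fun s => Function.update a i s) '' T := by
        ext b
        constructor
        · intro hb
          have hb1 := hb.1
          rw [hline] at hb1
          obtain ⟨s, hs, rfl⟩ := hb1
          exact ⟨s, hb, rfl⟩
        · rintro ⟨s, hs, rfl⟩
          exact hs
      have h3 := h F h2 n hn a ha i z hz R hR T (by
        rintro s ⟨hs1, hs2⟩
        have hs3 : hgt s ≤ n := by
          have := hs1.1
          rw [Function.update_self] at this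
          exact this
        refine ⟨hs3, ?_⟩
        exact data_of h2F hs2)
      rw [hTe, Set.ncard_image_of_injective _ hinj, hcard]
      exact h3.2
    refine ⟨?_, hz⟩
    refine le_trans ?_ (hz 1 (by simp))
    have h3 := Set.ncard_le_ncard (large_sub (line a i n) (κ * n) (n + 1) R)
      (hfin.subset fun b hb => hb.1)
    exact_mod_cast h3
  · obtain ⟨k, K, hk, hK, h⟩ := box
    have hr1 : (2 : ℝ) ^ (-k) < 1 := Real.rpow_lt_one_of_one_lt_of_neg (by norm_num) (by linarith)
    have hden : 0 < 1 - (2 : ℝ) ^ (-k) := by linarith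
    refine ⟨k, max K (K * (2 ^ k / (1 - (2 : ℝ) ^ (-k)))), hk, lt_max_of_lt_left hK,
      fun F _ _ h2 n hn S hS => ?_⟩
    have : Fintype F := Fintype.ofFinite F
    have h2F : (2 : F) ≠ 0 := Ring.two_ne_zero h2
    -- the set without the condition on the discriminant
    obtain ⟨A, hA1, hA2, hA3⟩ : ∃ A : Set (Fin 5 → RatFunc F), (∀ v ∈ A, ∀ j, hgt (v j) ≤ n) ∧
        (∀ v ∈ A, ∀ s, hgt s ≤ n → Function.update v 3 s ∈ A) ∧
        S = {v | v ∈ A ∧ (crv v).Δ ≠ 0} := by
      have hup : ∀ v : Fin 5 → RatFunc F, (∀ j, hgt (v j) ≤ n) → ∀ s, hgt s ≤ n →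
          ∀ j, hgt (Function.update v 3 s j) ≤ n := by
        intro v hv s hs j
        by_cases hj : j = 3
        · subst hj
          rw [Function.update_self]
          exact hs
        · rw [Function.update_of_ne hj]
          exact hv j
      rcases hS with rfl | rfl
      · exact ⟨{v | ∀ j, hgt (v j) ≤ n}, fun v hv => hv, fun v hv s hs => hup v hv s hs, rfl⟩
      · refine ⟨{v | (∀ j, hgt (v j) ≤ n) ∧ v 0 = 0 ∧ v 1 = 0 ∧ v 2 = 0}, fun v hv => hv.1,
          fun v hv s hs => ⟨hup v hv.1 s hs, ?_, ?_, ?_⟩, ?_⟩
        · simpa using hv.2.1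
        · simpa using hv.2.2.1
        · simpa using hv.2.2.2
        · ext v
          constructor
          · rintro ⟨⟨h3, h4⟩, h5⟩
            exact ⟨⟨h3, h5⟩, h4⟩
          · rintro ⟨⟨h3, h5⟩, h4⟩
            exact ⟨⟨h3, h4⟩, h5⟩
    have hfin : S.Finite := by
      have hsub : S ⊆ Set.pi Set.univ (fun _ : Fin 5 => {x : RatFunc F | hgt x ≤ n}) := by
        intro v hv j _
        rw [hA3] at hv
        exact hA1 v hv.1 j
      exact (Set.Finite.pi fun _ => box_fin n).subset hsub
    have hz : ∀ R : ℕ, 1 ≤ R → ∀ z : ℂ, ‖z‖ = 1 → ((manyZeros S n (n + 1) z R).ncard : ℝ) ≤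
        K * (R : ℝ) ^ (-(k * R)) * (S.ncard : ℝ) := by
      intro R hR z hz
      have h3 := h F h2 n hn A hA1 hA2 z hz R hR (manyZeros S n (n + 1) z R) (by
        intro v hv
        have := hv.1
        rw [hA3] at this
        exact this.1) (by
        intro v hv
        exact data_of h2F hv.2)
      rw [hA3] at h3 ⊢
      exact h3
    have hrank : ∀ R : ℕ, 1 ≤ R → ((largeRank S n R).ncard : ℝ) ≤
        K * (R : ℝ) ^ (-(k * R)) * (S.ncard : ℝ) := by
      intro R hR
      refine le_trans ?_ (hz R hR 1 (by simp))
      have h3 := Set.ncard_le_ncard (large_sub S n (n + 1) R) (hfin.subset fun b hb => hb.1)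
      exact_mod_cast h3
    have hmax : ∀ R : ℕ, K * (R : ℝ) ^ (-(k * R)) * (S.ncard : ℝ) ≤
        max K (K * (2 ^ k / (1 - (2 : ℝ) ^ (-k)))) * (R : ℝ) ^ (-(k * R)) * (S.ncard : ℝ) := by
      intro R
      have h3 : (0 : ℝ) ≤ (R : ℝ) ^ (-(k * R)) * (S.ncard : ℝ) := by positivity
      nlinarith [le_max_left K (K * (2 ^ k / (1 - (2 : ℝ) ^ (-k))))]
    refine ⟨hfin, fun R hR => ⟨(hrank R hR).trans (hmax R), fun z hz1 => (hz R hR z hz1).trans (hmax R)⟩,
      fun M => ?_⟩
    have h3 : ∑ R ∈ Finset.Icc 1 M, ((largeRank S n R).ncard : ℝ) ≤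
        ∑ R ∈ Finset.Icc 1 M, K * (R : ℝ) ^ (-(k * R)) * (S.ncard : ℝ) :=
      Finset.sum_le_sum fun R hR => hrank R (Finset.mem_Icc.1 hR).1
    refine h3.trans ?_
    have h4 := pow_sum hk M
    have h5 : ∑ R ∈ Finset.Icc 1 M, K * (R : ℝ) ^ (-(k * R)) * (S.ncard : ℝ) =
        K * (∑ R ∈ Finset.Icc 1 M, (R : ℝ) ^ (-(k * R))) * (S.ncard : ℝ) := by
      rw [Finset.mul_sum, Finset.sum_mul]
    rw [h5]
    refine mul_le_mul_of_nonneg_right ?_ (Nat.cast_nonneg _)
    exact (mul_le_mul_of_nonneg_left h4 hK.le).trans (le_max_right _ _)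

end Pool.Agent.Results.MP_81dc49_nt.HeightOrdering
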