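import Pool.Agent.J4H77.RK.Main

/-!
# The tail of the distribution of the analytic ranks over `𝔽_q(t)` in every quadratic one-parameter family

Let `F` be a finite field of odd characteristic with `q` elements, and let `A`, `B` be ANY polynomials of
degree at most `2` in a parameter `c`, with coefficients in `F[t]` of degree less than `4 d`, resp. `6 d`,
not both constant. For the `q ^ N` values `c ∈ F[t]`, `deg c < N`, where `d ≤ κ N`, the proportion of the
elliptic curves

  `y² = x³ + A(c) x + B(c)`

of analytic rank over `F(t)` at least `R` (hence also of rank at least `R`) is at most `K R^(-k R)`, where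
`k, K > 0` depend on `κ` only: for ALL `q`, `N`, `d`, `R` and ALL such families. For example `y² = x³ + A x + c`
for every fixed `A`, `y² = x³ + c x + B` for every fixed `B`, all the lines and the short intervals in the
`(A, B)`-plane, or the curves `y² = x³ - c² x`. The families can be as thin as any fixed power of the number of
all the curves of the same height.

More generally, for the hyperelliptic curves `y² = f₀(x) + c f₁(x) + c² f₂(x)` of genus `g`, `f₀` monic of degree
`2 g + 1`, the number of reciprocal zeros of the `L`-function in a disc around ANY point `q z`, `|z| = 1`, of the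
circle, of the size of the mean distance of the zeros, has the same tail.

Proof: for all but few primes `P` the mean over `c` of the trace of Frobenius at `P` is bounded (for fixed `x` the sum
over `c` is a sum of the quadratic character over a quadratic polynomial). After the subtraction of the means
the contributions of different primes are independent and Gaussian moments follow as in the starting
result `TailOfRanks`, which averages over all pairs `(A, B)`.
-/

set_option autoImplicit false

namespace Pool.Agent.Results.MP_81dc49_nt.OneParameterFamilies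

open Polynomial

/-- The affine points of the curve `y² = f(x)` over the residue ring `F[t] ⧸ P`. -/
def affinePoints {F : Type} [Field F] (f : F[X][X]) (P : F[X]) :
    Set ((F[X] ⧸ Ideal.span {P}) × (F[X] ⧸ Ideal.span {P})) :=
  {z | z.2 ^ 2 = (f.map (Ideal.Quotient.mk (Ideal.span {P}))).eval z.1}

/-- The trace of Frobenius of the curve `y² = f(x)` at the place `P`: for `f` monic of odd degree there is
one point at infinity, and the trace is `q_P + 1` minus the number of all points. -/
noncomputable def frobeniusTrace {F : Type} [Field F] (f : F[X][X]) (P : F[X]) : ℝ :=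
  (Nat.card F : ℝ) ^ P.natDegree - (affinePoints f P).ncard

/-- The monic irreducible polynomials of degree `e` outside a finite set. -/
def goodPlaces {F : Type} [Field F] (bad : Finset F[X]) (e : ℕ) : Set F[X] :=
  {P | P.Monic ∧ Irreducible P ∧ P.natDegree = e ∧ P ∉ bad}

/-- The eigenvalues of Frobenius attached to the curve `C : y² = f(x)` over `F(t)`, `f` monic of degree
`2 g + 1` in `x`. The product of the inverses of the local polynomials of `C` over the finite places outside
`bad` (the primes of bad reduction) is the polynomial `∏ (1 - α i T) ∏ (1 - β j T)`, where the `α i` are the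
reciprocal zeros of the `L`-function (eigenvalues of weight two) and the `β j` come from the remaining
places. The logarithmic derivative of this identity is the trace formula `formula`. -/
structure FrobeniusData {F : Type} [Field F] (f : F[X][X]) (g : ℕ) (K : ℝ) where
  /-- the number of the eigenvalues of weight two -/
  D : ℕ
  /-- the eigenvalues of weight two: the reciprocal zeros of the `L`-function -/
  α : Fin D → ℂ
  /-- the number of the other eigenvalues -/
  D' : ℕ
  /-- the other eigenvalues -/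
  β : Fin D' → ℂ
  /-- the places of bad reduction -/
  bad : Finset F[X]
  /-- the eigenvalues of Frobenius at the good places -/
  loc : F[X] → Fin (2 * g) → ℂ
  size : (D : ℝ) ≤ K ∧ (D' : ℝ) ≤ K ∧ ∑ P ∈ bad, (P.natDegree : ℝ) ≤ K
  norm_α : ∀ i, ‖α i‖ = Nat.card F
  norm_β : ∀ j, ‖β j‖ ≤ √(Nat.card F)
  norm_loc : ∀ P, P.Monic → Irreducible P → P ∉ bad → ∀ i, ‖loc P i‖ ≤ √(Nat.card F) ^ P.natDegree
  sum_loc : ∀ P, P.Monic → Irreducible P → P ∉ bad → ∑ i, loc P i = (frobeniusTrace f P : ℂ)
  formula : ∀ n : ℕ, 1 ≤ n → ∑ i, α i ^ n + ∑ j, β j ^ n =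
    -∑ e ∈ n.divisors, ∑ᶠ P ∈ goodPlaces bad e, (e : ℂ) * ∑ i, loc P i ^ (n / e)

/-- The parameters `c`, `deg c < N`, such that at least `R` reciprocal zeros of the `L`-function of the curve
`y² = f₀(x) + c f₁(x) + c² f₂(x)` lie in the disc with centre `q z` and radius `q / N`. -/
def manyZeros {F : Type} [Field F] (f₀ f₁ f₂ : F[X][X]) (g : ℕ) (κ : ℝ) (N : ℕ) (z : ℂ) (R : ℕ) :
    Set F[X] :=
  {c | c.degree < N ∧ ∃ E : FrobeniusData (f₀ + C c * f₁ + C (c ^ 2) * f₂) g (κ * N),
    R ≤ {i | ‖E.α i / Nat.card F - z‖ ≤ 1 / N}.ncard}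

/-- The parameters `c`, `deg c < N`, such that `q` is a reciprocal zero of multiplicity at least `R` of the
`L`-function of `y² = x³ + A(c) x + B(c)` over `F(t)`, that is: the analytic rank is at least `R`. (If the
coefficients of `A`, `B`, of degree at most `2` in `c`, have degrees less than `4 d`, resp. `6 d`, then `A(c)` and
`B(c)` have degrees less than `4 (d + N)`, resp. `6 (d + N)`.) -/
def largeRank {F : Type} [Field F] (A B : F[X][X]) (N d R : ℕ) : Set F[X] :=
  {c | c.degree < N ∧ ∃ E : FrobeniusData (X ^ 3 + C (A.eval c) * X + C (B.eval c)) 1 (28 * (d + N)),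
    R ≤ {i | E.α i = Nat.card F}.ncard}

open Pool.Agent.J4H77.RK Pool.Agent.N430.RT

/-- the translation of the data -/
noncomputable def FrobeniusData.toED {F : Type} [Field F] [Fintype F] {f : F[X][X]} {g : ℕ}
    {K : ℝ} (E : FrobeniusData f g K) : ED f 0 0 (2 * g) K where
  D := E.D
  α := E.α
  D' := E.D'
  β := E.β
  bad := E.bad
  loc := E.loc
  hD := E.size.1
  hD' := E.size.2.1
  hbad := E.size.2.2
  hα := fun i => by rw [E.norm_α i, Nat.card_eq_fintype_card]
  hβ := fun j => by
    have := E.norm_β j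
    rwa [Nat.card_eq_fintype_card] at this
  hloc := fun P h1 h2 h3 i => by
    have := E.norm_loc P h1 h2 h3 i
    rwa [Nat.card_eq_fintype_card] at this
  htr := fun P h1 h2 h3 => by
    rw [E.sum_loc P h1 h2 h3]
    have e : affinePoints f P = pset f 0 0 P := by
      ext z
      simp [affinePoints, pset]
    unfold frobeniusTrace trP
    rw [Nat.card_eq_fintype_card, e]
  hform := fun n hn => by
    classical
    rw [E.formula n hn]
    congr 1
    refine Finset.sum_congr rfl fun e _ => ?_
    have h1 : goodPlaces E.bad e =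
        (((Pool.Agent.N430.BP.FF.IR F e).filter (· ∉ E.bad) : Finset F[X]) : Set F[X]) := by
      ext P
      unfold goodPlaces
      rw [Finset.mem_coe, Finset.mem_filter, Pool.Agent.N430.BP.FF.mem_IR]
      constructor
      · rintro ⟨a, b, c, d⟩
        exact ⟨⟨a, b, c⟩, d⟩
      · rintro ⟨⟨a, b, c⟩, d⟩
        exact ⟨a, b, c, d⟩
    rw [h1, finsum_mem_coe_finset]

/-- the translation of the counting -/
lemma sub_many {F : Type} [Field F] [Fintype F] {f₀ f₁ f₂ : F[X][X]} {g : ℕ} {κ : ℝ} {N : ℕ} {z : ℂ} {R : ℕ}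
    {c : F[X]} (hc : c.degree < N) (E : FrobeniusData (fam f₀ f₁ f₂ c) g (κ * N))
    (hE : R ≤ {i | ‖E.α i / Nat.card F - z‖ ≤ 1 / N}.ncard) :
    (⟨c, mem_degreeLT.2 hc⟩ : degreeLT F N) ∈ many2 F N f₀ f₁ f₂ (2 * g) κ z R := by
  classical
  unfold many2
  rw [Finset.mem_filter]
  refine ⟨Finset.mem_univ _, E.toED, Finset.univ.filter fun i => ‖E.α i / Nat.card F - z‖ ≤ 1 / N,
    fun i hi => ?_, ?_⟩
  · have := (Finset.mem_filter.1 hi).2
    rwa [Nat.card_eq_fintype_card] at this
  · have e : {i | ‖E.α i / Nat.card F - z‖ ≤ 1 / N} = ((Finset.univ.filter fun i =>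
        ‖E.α i / Nat.card F - z‖ ≤ 1 / N : Finset (Fin E.D)) : Set (Fin E.D)) := by
      ext i
      simp
    rw [e, Set.ncard_coe_finset] at hE
    exact hE

/-- a set of polynomials which is contained in a finite set of polynomials of bounded degree -/
lemma ncard_of {F : Type} [Field F] [Fintype F] {N : ℕ} (s : Finset (degreeLT F N)) (T : Set F[X])
    (h : ∀ c ∈ T, ∃ c' ∈ s, (c' : F[X]) = c) : T.Finite ∧ T.ncard ≤ s.card := by
  classical
  have h1 : T ⊆ ((s.image fun c : degreeLT F N => (c : F[X]) : Finset F[X]) : Set F[X]) := by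
    intro c hc
    obtain ⟨c', h2, h3⟩ := h c hc
    rw [Finset.mem_coe, Finset.mem_image]
    exact ⟨c', h2, h3⟩
  refine ⟨(Finset.finite_toSet _).subset h1, ?_⟩
  have h2 := Set.ncard_le_ncard h1 (Finset.finite_toSet _)
  rw [Set.ncard_coe_finset] at h2
  exact h2.trans Finset.card_image_le

lemma eval_quad {F : Type} [Field F] {A : F[X][X]} (h : A.natDegree ≤ 2) (c : F[X]) :
    A.eval c = A.coeff 0 + A.coeff 1 * c + A.coeff 2 * c ^ 2 := by
  rw [Polynomial.eval_eq_sum_range' (lt_of_le_of_lt h (by norm_num : 2 < 3)) c]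
  simp [Finset.sum_range_succ]

/-- **The tail of the analytic ranks and of the zeros near a point, in every quadratic family.** -/
theorem result :
    (∀ g : ℕ, 1 ≤ g → ∀ κ : ℝ, 1 ≤ κ → ∃ k K : ℝ, 0 < k ∧ 0 < K ∧
      ∀ (F : Type) [Field F] [Finite F], ringChar F ≠ 2 → ∀ N : ℕ, 1 ≤ N →
      ∀ f₀ f₁ f₂ : F[X][X], f₀.Monic → f₀.natDegree = 2 * g + 1 → f₁.natDegree ≤ 2 * g →
      f₂.natDegree ≤ 2 * g →
      (∃ j : ℕ, (f₁ ^ 2 - 4 * f₀ * f₂).coeff j ≠ 0 ∧
        (((f₁ ^ 2 - 4 * f₀ * f₂).coeff j).natDegree : ℝ) ≤ κ * N) →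
      ∀ z : ℂ, ‖z‖ = 1 → ∀ R : ℕ, 1 ≤ R →
        (manyZeros f₀ f₁ f₂ g κ N z R).Finite ∧ ((manyZeros f₀ f₁ f₂ g κ N z R).ncard : ℝ) ≤
          K * (R : ℝ) ^ (-(k * R)) * (Nat.card F : ℝ) ^ N) ∧
    ∀ κ : ℝ, 1 ≤ κ → ∃ k K : ℝ, 0 < k ∧ 0 < K ∧
      ∀ (F : Type) [Field F] [Finite F], ringChar F ≠ 2 → ∀ N d : ℕ, 1 ≤ N → (d : ℝ) ≤ κ * N →
      ∀ A B : F[X][X], A.natDegree ≤ 2 → B.natDegree ≤ 2 →
      (∀ i : ℕ, (A.coeff i).degree < (4 * d : ℕ) ∧ (B.coeff i).degree < (6 * d : ℕ)) →
      (0 < A.natDegree ∨ 0 < B.natDegree) → ∀ R : ℕ, 1 ≤ R →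
        (largeRank A B N d R).Finite ∧ ((largeRank A B N d R).ncard : ℝ) ≤
          K * (R : ℝ) ^ (-(k * R)) * (Nat.card F : ℝ) ^ N := by
  classical
  refine ⟨?_, ?_⟩
  · intro g hg κ hκ
    obtain ⟨c, C, hc, hC, h⟩ := main_pencil (2 * g + 1) (2 * g) (by omega) ⟨g, rfl⟩ (by omega) hκ
    refine ⟨c, C, hc, hC, fun F _ _ h2 N hN f₀ f₁ f₂ h0 hd0 hd1 hd2 hj z hz R hR => ?_⟩
    have : Fintype F := Fintype.ofFinite F
    have h7 := h F h2 N hN f₀ f₁ f₂ h0 hd0 (by omega) (by omega) hj z hz R hR
    obtain ⟨h8, h9⟩ := ncard_of (many2 F N f₀ f₁ f₂ (2 * g) κ z R) (manyZeros f₀ f₁ f₂ g κ N z R) (by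
      rintro c ⟨h3, E, hE⟩
      exact ⟨⟨c, mem_degreeLT.2 h3⟩, sub_many h3 E hE, rfl⟩)
    refine ⟨h8, ?_⟩
    rw [Nat.card_eq_fintype_card]
    refine le_trans ?_ h7
    exact_mod_cast h9
  · intro κ hκ
    obtain ⟨c, K, hc, hK, h⟩ := main_pencil 3 2 (by omega) (by decide) (by omega)
      (κ := 56 * κ) (by linarith)
    refine ⟨c, K, hc, hK, fun F _ _ h2 N d hN hd A B hA hB hcoef hne R hR => ?_⟩
    have : Fintype F := Fintype.ofFinite F
    have hNr : (1 : ℝ) ≤ N := by exact_mod_cast hN
    -- the family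
    set f₀ : F[X][X] := X ^ 3 + C (A.coeff 0) * X + C (B.coeff 0) with hf0
    set f₁ : F[X][X] := C (A.coeff 1) * X + C (B.coeff 1) with hf1
    set f₂ : F[X][X] := C (A.coeff 2) * X + C (B.coeff 2) with hf2
    have hfam : ∀ c : F[X], X ^ 3 + C (A.eval c) * X + C (B.eval c) = fam f₀ f₁ f₂ c := by
      intro c
      rw [eval_quad hA, eval_quad hB]
      unfold fam
      rw [hf0, hf1, hf2]
      simp only [map_add, map_mul]
      ring
    have hlin : ∀ a b : F[X], (C a * X + C b : F[X][X]).natDegree ≤ 1 := fun a b => natDegree_linear_le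
    have hm0 : f₀.Monic ∧ f₀.natDegree = 3 := by
      have e : f₀ = X ^ 3 + (C (A.coeff 0) * X + C (B.coeff 0)) := by rw [hf0, add_assoc]
      have hlt : (C (A.coeff 0) * X + C (B.coeff 0) : F[X][X]).degree < (X ^ 3 : F[X][X]).degree := by
        rw [degree_X_pow]
        refine lt_of_le_of_lt degree_linear_le ?_
        norm_num
      rw [e]
      refine ⟨(monic_X_pow 3).add_of_left hlt, ?_⟩
      rw [natDegree_add_eq_left_of_degree_lt hlt, natDegree_X_pow]
    have hdeg4 : ∀ i, ((A.coeff i).natDegree : ℝ) ≤ 4 * d := by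
      intro i
      by_cases h0 : A.coeff i = 0
      · rw [h0, natDegree_zero, Nat.cast_zero]
        positivity
      · have h3 := (natDegree_lt_iff_degree_lt h0).2 (hcoef i).1
        have h4 : ((A.coeff i).natDegree : ℝ) ≤ ((4 * d : ℕ) : ℝ) := by exact_mod_cast h3.le
        push_cast at h4
        exact h4
    have hdeg6 : ∀ i, ((B.coeff i).natDegree : ℝ) ≤ 6 * d := by
      intro i
      by_cases h0 : B.coeff i = 0
      · rw [h0, natDegree_zero, Nat.cast_zero]
        positivity
      · have h3 := (natDegree_lt_iff_degree_lt h0).2 (hcoef i).2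
        have h4 : ((B.coeff i).natDegree : ℝ) ≤ ((6 * d : ℕ) : ℝ) := by exact_mod_cast h3.le
        push_cast at h4
        exact h4
    have h2F : (2 : F) ≠ 0 := Ring.two_ne_zero h2
    have h4F : (4 : F) ≠ 0 := by
      have e : (4 : F) = 2 * 2 := by norm_num
      rw [e]
      exact mul_ne_zero h2F h2F
    have h4X : (4 : F[X]) ≠ 0 := by
      have e : (4 : F[X]) = C (4 : F) := (map_ofNat C 4).symm
      rw [e, Ne, Polynomial.C_eq_zero]
      exact h4F
    have hn4 : ∀ a : F[X], ((-(4 * a)).natDegree : ℝ) = a.natDegree := by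
      intro a
      rw [natDegree_neg]
      have e : (4 : F[X]) * a = C (4 : F) * a := by rw [map_ofNat]
      rw [e, natDegree_C_mul h4F]
    have hdκ : 12 * (d : ℝ) ≤ 56 * κ * N := by nlinarith
    have hdsc : ∃ j, (dsc f₀ f₁ f₂).coeff j ≠ 0 ∧
        (((dsc f₀ f₁ f₂).coeff j).natDegree : ℝ) ≤ 56 * κ * N := by
      have hd0 : (0 : ℝ) ≤ d := Nat.cast_nonneg _
      have hexp : dsc f₀ f₁ f₂ = C (-(4 * A.coeff 2)) * X ^ 4 + C (-(4 * B.coeff 2)) * X ^ 3 +
          C (A.coeff 1 ^ 2 - 4 * A.coeff 0 * A.coeff 2) * X ^ 2 +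
          C (2 * A.coeff 1 * B.coeff 1 - 4 * A.coeff 0 * B.coeff 2 - 4 * B.coeff 0 * A.coeff 2) * X +
          C (B.coeff 1 ^ 2 - 4 * B.coeff 0 * B.coeff 2) := by
        unfold dsc
        rw [hf0, hf1, hf2]
        simp only [map_sub, map_mul, map_pow, map_neg, map_ofNat]
        ring
      have hc4 : (dsc f₀ f₁ f₂).coeff 4 = -(4 * A.coeff 2) := by
        rw [hexp]
        simp only [coeff_add, coeff_C_mul, coeff_X_pow, coeff_X, coeff_C]
        norm_num
      have hc3 : (dsc f₀ f₁ f₂).coeff 3 = -(4 * B.coeff 2) := by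
        rw [hexp]
        simp only [coeff_add, coeff_C_mul, coeff_X_pow, coeff_X, coeff_C]
        norm_num
      have hc2 : (dsc f₀ f₁ f₂).coeff 2 = A.coeff 1 ^ 2 - 4 * A.coeff 0 * A.coeff 2 := by
        rw [hexp]
        simp only [coeff_add, coeff_C_mul, coeff_X_pow, coeff_X, coeff_C]
        norm_num
      have hc0 : (dsc f₀ f₁ f₂).coeff 0 = B.coeff 1 ^ 2 - 4 * B.coeff 0 * B.coeff 2 := by
        rw [hexp]
        simp only [coeff_add, coeff_C_mul, coeff_X_pow, coeff_X, coeff_C]
        norm_num
      by_cases ha2 : A.coeff 2 = 0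
      · by_cases hb2 : B.coeff 2 = 0
        · by_cases ha1 : A.coeff 1 = 0
          · have hb1 : B.coeff 1 ≠ 0 := by
              intro hb1
              have hz : ∀ D : F[X][X], D.natDegree ≤ 2 → D.coeff 1 = 0 → D.coeff 2 = 0 →
                  D.natDegree = 0 := by
                intro D hD h1 h2'
                by_contra hne0
                have hpos : 0 < D.natDegree := Nat.pos_of_ne_zero hne0
                have h3 : D.coeff D.natDegree ≠ 0 := by
                  rw [coeff_natDegree, Ne, leadingCoeff_eq_zero]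
                  rintro rfl
                  simp at hpos
                have h4 : D.natDegree = 1 ∨ D.natDegree = 2 := by omega
                rcases h4 with h4 | h4 <;> rw [h4] at h3 <;> contradiction
              rcases hne with h | h
              · rw [hz A hA ha1 ha2] at h
                exact lt_irrefl _ h
              · rw [hz B hB hb1 hb2] at h
                exact lt_irrefl _ h
            refine ⟨0, ?_, ?_⟩
            · rw [hc0, hb2, mul_zero, sub_zero]
              exact pow_ne_zero 2 hb1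
            · rw [hc0, hb2, mul_zero, sub_zero]
              have h3 : ((B.coeff 1 ^ 2).natDegree : ℝ) = 2 * (B.coeff 1).natDegree := by
                rw [natDegree_pow]
                push_cast
                ring
              rw [h3]
              have := hdeg6 1
              linarith
          · refine ⟨2, ?_, ?_⟩
            · rw [hc2, ha2, mul_zero, sub_zero]
              exact pow_ne_zero 2 ha1
            · rw [hc2, ha2, mul_zero, sub_zero]
              have h3 : ((A.coeff 1 ^ 2).natDegree : ℝ) = 2 * (A.coeff 1).natDegree := by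
                rw [natDegree_pow]
                push_cast
                ring
              rw [h3]
              have := hdeg4 1
              linarith
        · refine ⟨3, ?_, ?_⟩
          · rw [hc3, neg_ne_zero]
            exact mul_ne_zero h4X hb2
          · rw [hc3, hn4]
            have := hdeg6 2
            linarith
      · refine ⟨4, ?_, ?_⟩
        · rw [hc4, neg_ne_zero]
          exact mul_ne_zero h4X ha2
        · rw [hc4, hn4]
          have := hdeg4 2
          linarith
    have h7 := h F h2 N hN f₀ f₁ f₂ hm0.1 hm0.2 (lt_of_le_of_lt (hlin _ _) (by norm_num))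
      (lt_of_le_of_lt (hlin _ _) (by norm_num)) hdsc 1 (by simp) R hR
    obtain ⟨h8, h9⟩ := ncard_of (many2 F N f₀ f₁ f₂ 2 (56 * κ) 1 R) (largeRank A B N d R) (by
      rintro c ⟨h3, E, hE⟩
      refine ⟨⟨c, mem_degreeLT.2 h3⟩, ?_, rfl⟩
      have hKle : 28 * ((d : ℝ) + N) ≤ 56 * κ * N := by nlinarith
      -- transport of the data
      have key : ∀ f' : F[X][X], X ^ 3 + C (A.eval c) * X + C (B.eval c) = f' →
          ∃ E' : FrobeniusData f' 1 (56 * κ * N), R ≤ {i | E'.α i = Nat.card F}.ncard := by
        rintro f' rfl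
        exact ⟨{ E with size := ⟨E.size.1.trans hKle, E.size.2.1.trans hKle, E.size.2.2.trans hKle⟩ }, hE⟩
      obtain ⟨E', hE'⟩ := key _ (hfam c)
      have h10 := sub_many (g := 1) (κ := 56 * κ) (z := 1) (R := R) h3 E' (by
        refine hE'.trans (Set.ncard_le_ncard (fun i hi => ?_) (Set.toFinite _))
        have hi' : E'.α i = Nat.card F := hi
        have hq : (Nat.card F : ℂ) ≠ 0 := by
          rw [Nat.card_eq_fintype_card]
          exact_mod_cast Fintype.card_ne_zero
        rw [Set.mem_ofPred_eq, hi', div_self hq, sub_self, norm_zero]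
        positivity)
      exact h10)
    refine ⟨h8, ?_⟩
    rw [Nat.card_eq_fintype_card]
    refine le_trans ?_ h7
    exact_mod_cast h9

end Pool.Agent.Results.MP_81dc49_nt.OneParameterFamilies
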