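import Pool.Agent.J4H77.RK.Tw

/-!
# The tail of the distribution of the analytic ranks over `𝔽_q(t)` in the families of the quadratic twists of any curve

Let `F` be a finite field of odd characteristic with `q` elements, let `A`, `B` be ANY elements of `F[t]` of degree less
than `4 d`, resp. `6 d`, and let `D(c)` be ANY polynomial in a parameter `c` of degree at most `m` with coefficients in
`F[t]` of degree at most `δ`, which is of odd degree or of the form `D = a h² + r` with `r ≠ 0` of smaller degree than `h`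
(so it is not a constant times a square). For the `q ^ N` values `c ∈ F[t]`, `deg c < N`, where `d, δ` and the degree of
one coefficient (which shows that `D` is not a square) are at most `κ N`, the proportion of the quadratic twists

  `D(c) y² = x³ + A x + B`

of analytic rank over `F(t)` at least `R` (hence also of rank at least `R`) is at most `K R^(-k R)`, where `k, K > 0`
depend on `κ` and `m` only: for ALL `q`, `N`, `d`, `δ`, `R`, `A`, `B`, `D`. For `D = c + a` these are all the quadratic
twists by the elements of a short interval.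

More generally, for the hyperelliptic curves `D(c) y² = f(x)` of genus `g`, `f` monic of degree `2 g + 1` over `F[t]`,
the number of reciprocal zeros of the `L`-function in a disc around ANY point `q z`, `|z| = 1`, of the circle, of the size
of the mean distance of the zeros, has the same tail.

Proof: by Weil's bound for the sums of the quadratic character over the values of `D` the mean over `c` of the trace
of Frobenius at all but few primes is bounded; after the subtraction of the means the contributions of different primes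
are independent and Gaussian moments follow, as in `OneParameterFamilies` and in the starting result `TailOfRanks`.
-/

set_option autoImplicit false

namespace Pool.Agent.Results.MP_81dc49_nt.QuadraticTwists

open Polynomial

/-- The affine points of the curve `y² = f(x)` over the residue ring `F[t] ⧸ P`. -/
def affinePoints {F : Type} [Field F] (f : F[X][X]) (P : F[X]) :
    Set ((F[X] ⧸ Ideal.span {P}) × (F[X] ⧸ Ideal.span {P})) :=
  {z | z.2 ^ 2 = (f.map (Ideal.Quotient.mk (Ideal.span {P}))).eval z.1}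

/-- The trace of Frobenius of the curve `y² = f(x)` at the place `P`: for `f` monic of odd degree there is
one point at infinity, and the trace is `q_P + 1` minus the number of all points. -/
noncomputable def frobeniusTrace {F : Type} [Field F] (f : F[X][X]) (P : F[X]) : ℝ :=
  (Nat.card F : ℝ) ^ P.natDegree - (affinePoints f P).ncard

/-- The monic irreducible polynomials of degree `e` outside a finite set. -/
def goodPlaces {F : Type} [Field F] (bad : Finset F[X]) (e : ℕ) : Set F[X] :=
  {P | P.Monic ∧ Irreducible P ∧ P.natDegree = e ∧ P ∉ bad}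

/-- The eigenvalues of Frobenius attached to the curve `C : y² = f(x)` over `F(t)`, `f` monic of degree
`2 g + 1` in `x`. The product of the inverses of the local polynomials of `C` over the finite places outside
`bad` (the primes of bad reduction) is the polynomial `∏ (1 - α i T) ∏ (1 - β j T)`, where the `α i` are the
reciprocal zeros of the `L`-function (eigenvalues of weight two) and the `β j` come from the remaining
places. The logarithmic derivative of this identity is the trace formula `formula`. -/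
structure FrobeniusData {F : Type} [Field F] (f : F[X][X]) (g : ℕ) (K : ℝ) where
  /-- the number of the eigenvalues of weight two -/
  D : ℕ
  /-- the eigenvalues of weight two: the reciprocal zeros of the `L`-function -/
  α : Fin D → ℂ
  /-- the number of the other eigenvalues -/
  D' : ℕ
  /-- the other eigenvalues -/
  β : Fin D' → ℂ
  /-- the places of bad reduction -/
  bad : Finset F[X]
  /-- the eigenvalues of Frobenius at the good places -/
  loc : F[X] → Fin (2 * g) → ℂ
  size : (D : ℝ) ≤ K ∧ (D' : ℝ) ≤ K ∧ ∑ P ∈ bad, (P.natDegree : ℝ) ≤ K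
  norm_α : ∀ i, ‖α i‖ = Nat.card F
  norm_β : ∀ j, ‖β j‖ ≤ √(Nat.card F)
  norm_loc : ∀ P, P.Monic → Irreducible P → P ∉ bad → ∀ i, ‖loc P i‖ ≤ √(Nat.card F) ^ P.natDegree
  sum_loc : ∀ P, P.Monic → Irreducible P → P ∉ bad → ∑ i, loc P i = (frobeniusTrace f P : ℂ)
  formula : ∀ n : ℕ, 1 ≤ n → ∑ i, α i ^ n + ∑ j, β j ^ n =
    -∑ e ∈ n.divisors, ∑ᶠ P ∈ goodPlaces bad e, (e : ℂ) * ∑ i, loc P i ^ (n / e)

/-- `D(c)` is a polynomial of degree at most `m` in the parameter `c` over `F[t]` which is not a constant times a square: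
either its degree is odd and the leading coefficient has degree at most `B` in `t`, or `D = a h² + r` with `r ≠ 0` of
smaller degree than `h`, where the degrees in `t` of `a ≠ 0`, of the leading coefficient of `h` and of one nonzero
coefficient of `r` are at most `B` in total. -/
def NotSquare {F : Type} [Field F] (D : F[X][X]) (m : ℕ) (B : ℝ) : Prop :=
  (Odd D.natDegree ∧ D.natDegree ≤ m ∧ (D.leadingCoeff.natDegree : ℝ) ≤ B) ∨
  ∃ (a : F[X]) (h r : F[X][X]) (j : ℕ), D = C a * h ^ 2 + r ∧ r.natDegree < h.natDegree ∧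
    2 * h.natDegree ≤ m ∧ a ≠ 0 ∧ r.coeff j ≠ 0 ∧
    ((a.natDegree + h.leadingCoeff.natDegree + (r.coeff j).natDegree : ℕ) : ℝ) ≤ B

/-- The parameters `c`, `deg c < N`, such that at least `R` reciprocal zeros of the `L`-function of the quadratic twist
`D(c) y² = f(x)`, in the form `y² = D(c)^(2 g + 1) f(x / D(c))`, lie in the disc with centre `q z` and radius `q / N`. -/
def manyZeros {F : Type} [Field F] (f D : F[X][X]) (g : ℕ) (κ : ℝ) (N : ℕ) (z : ℂ) (R : ℕ) : Set F[X] :=
  {c | c.degree < N ∧ ∃ E : FrobeniusData (f.scaleRoots (D.eval c)) g (κ * N),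
    R ≤ {i | ‖E.α i / Nat.card F - z‖ ≤ 1 / N}.ncard}

/-- The parameters `c`, `deg c < N`, such that `q` is a reciprocal zero of multiplicity at least `R` of the
`L`-function of the quadratic twist `D(c) y² = x³ + A x + B`, in the form `y² = x³ + A D(c)² x + B D(c)³`, that is: the
analytic rank over `F(t)` of the twist is at least `R`. -/
def largeRank {F : Type} [Field F] (A B : F[X]) (D : F[X][X]) (N : ℕ) (K : ℝ) (R : ℕ) : Set F[X] :=
  {c | c.degree < N ∧ ∃ E : FrobeniusData (X ^ 3 + C (A * D.eval c ^ 2) * X + C (B * D.eval c ^ 3)) 1 K,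
    R ≤ {i | E.α i = Nat.card F}.ncard}

open Pool.Agent.J4H77.RK Pool.Agent.N430.RT

/-- the translation of the data -/
noncomputable def FrobeniusData.toED {F : Type} [Field F] [Fintype F] {f : F[X][X]} {g : ℕ}
    {K : ℝ} (E : FrobeniusData f g K) : ED f 0 0 (2 * g) K where
  D := E.D
  α := E.α
  D' := E.D'
  β := E.β
  bad := E.bad
  loc := E.loc
  hD := E.size.1
  hD' := E.size.2.1
  hbad := E.size.2.2
  hα := fun i => by rw [E.norm_α i, Nat.card_eq_fintype_card]
  hβ := fun j => by
    have := E.norm_β j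
    rwa [Nat.card_eq_fintype_card] at this
  hloc := fun P h1 h2 h3 i => by
    have := E.norm_loc P h1 h2 h3 i
    rwa [Nat.card_eq_fintype_card] at this
  htr := fun P h1 h2 h3 => by
    rw [E.sum_loc P h1 h2 h3]
    have e : affinePoints f P = pset f 0 0 P := by
      ext z
      simp [affinePoints, pset]
    unfold frobeniusTrace trP
    rw [Nat.card_eq_fintype_card, e]
  hform := fun n hn => by
    classical
    rw [E.formula n hn]
    congr 1
    refine Finset.sum_congr rfl fun e _ => ?_
    have h1 : goodPlaces E.bad e =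
        (((Pool.Agent.N430.BP.FF.IR F e).filter (· ∉ E.bad) : Finset F[X]) : Set F[X]) := by
      ext P
      unfold goodPlaces
      rw [Finset.mem_coe, Finset.mem_filter, Pool.Agent.N430.BP.FF.mem_IR]
      constructor
      · rintro ⟨a, b, c, d⟩
        exact ⟨⟨a, b, c⟩, d⟩
      · rintro ⟨⟨a, b, c⟩, d⟩
        exact ⟨a, b, c, d⟩
    rw [h1, finsum_mem_coe_finset]

/-- the translation of the counting -/
lemma sub_many {F : Type} [Field F] [Fintype F] {G : F[X] → F[X][X]} {g : ℕ} {κ : ℝ} {N : ℕ} {z : ℂ} {R : ℕ}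
    {c : F[X]} (hc : c.degree < N) (E : FrobeniusData (G c) g (κ * N))
    (hE : R ≤ {i | ‖E.α i / Nat.card F - z‖ ≤ 1 / N}.ncard) :
    (⟨c, mem_degreeLT.2 hc⟩ : degreeLT F N) ∈ manyG F N G (2 * g) κ z R := by
  classical
  unfold manyG
  rw [Finset.mem_filter]
  refine ⟨Finset.mem_univ _, E.toED, Finset.univ.filter fun i => ‖E.α i / Nat.card F - z‖ ≤ 1 / N,
    fun i hi => ?_, ?_⟩
  · have := (Finset.mem_filter.1 hi).2
    rwa [Nat.card_eq_fintype_card] at this
  · have e : {i | ‖E.α i / Nat.card F - z‖ ≤ 1 / N} = ((Finset.univ.filter fun i =>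
        ‖E.α i / Nat.card F - z‖ ≤ 1 / N : Finset (Fin E.D)) : Set (Fin E.D)) := by
      ext i
      simp
    rw [e, Set.ncard_coe_finset] at hE
    exact hE

/-- a set of polynomials which is contained in a finite set of polynomials of bounded degree -/
lemma ncard_of {F : Type} [Field F] [Fintype F] {N : ℕ} (s : Finset (degreeLT F N)) (T : Set F[X])
    (h : ∀ c ∈ T, ∃ c' ∈ s, (c' : F[X]) = c) : T.Finite ∧ T.ncard ≤ s.card := by
  classical
  have h1 : T ⊆ ((s.image fun c : degreeLT F N => (c : F[X]) : Finset F[X]) : Set F[X]) := by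
    intro c hc
    obtain ⟨c', h2, h3⟩ := h c hc
    rw [Finset.mem_coe, Finset.mem_image]
    exact ⟨c', h2, h3⟩
  refine ⟨(Finset.finite_toSet _).subset h1, ?_⟩
  have h2 := Set.ncard_le_ncard h1 (Finset.finite_toSet _)
  rw [Set.ncard_coe_finset] at h2
  exact h2.trans Finset.card_image_le

/-- the cubic -/
lemma cubic_deg {F : Type} [Field F] (A B : F[X]) :
    (X ^ 3 + C A * X + C B : F[X][X]).Monic ∧ (X ^ 3 + C A * X + C B : F[X][X]).natDegree = 3 := by
  have e : (X ^ 3 + C A * X + C B : F[X][X]) = X ^ 3 + (C A * X + C B) := by rw [add_assoc]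
  have hlt : (C A * X + C B : F[X][X]).degree < (X ^ 3 : F[X][X]).degree := by
    rw [degree_X_pow]
    refine lt_of_le_of_lt degree_linear_le ?_
    norm_num
  rw [e]
  refine ⟨(monic_X_pow 3).add_of_left hlt, ?_⟩
  rw [natDegree_add_eq_left_of_degree_lt hlt, natDegree_X_pow]

/-- the twist of the cubic -/
lemma cubic_tw {F : Type} [Field F] (A B s : F[X]) :
    (X ^ 3 + C A * X + C B : F[X][X]).scaleRoots s = X ^ 3 + C (A * s ^ 2) * X + C (B * s ^ 3) := by
  ext i
  rw [coeff_scaleRoots, (cubic_deg A B).2]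
  simp only [coeff_add, coeff_X_pow, coeff_C_mul, coeff_X, coeff_C]
  rcases i with _ | _ | _ | _ | i
  · simp
  · simp
  · simp
  · simp
  · simp

/-- **The tail of the analytic ranks and of the zeros near a point, in the families of quadratic twists.** -/
theorem result :
    (∀ g m : ℕ, 1 ≤ g → 1 ≤ m → ∀ κ : ℝ, 1 ≤ κ → ∃ k K : ℝ, 0 < k ∧ 0 < K ∧
      ∀ (F : Type) [Field F] [Finite F], ringChar F ≠ 2 → ∀ N : ℕ, 1 ≤ N →
      ∀ f : F[X][X], f.Monic → f.natDegree = 2 * g + 1 → ∀ D : F[X][X], NotSquare D m (κ * N) →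
      ∀ z : ℂ, ‖z‖ = 1 → ∀ R : ℕ, 1 ≤ R →
        (manyZeros f D g κ N z R).Finite ∧ ((manyZeros f D g κ N z R).ncard : ℝ) ≤
          K * (R : ℝ) ^ (-(k * R)) * (Nat.card F : ℝ) ^ N) ∧
    ∀ m : ℕ, 1 ≤ m → ∀ κ : ℝ, 1 ≤ κ → ∃ k K : ℝ, 0 < k ∧ 0 < K ∧
      ∀ (F : Type) [Field F] [Finite F], ringChar F ≠ 2 →
      ∀ N d δ : ℕ, 1 ≤ N → (d : ℝ) ≤ κ * N → (δ : ℝ) ≤ κ * N →
      ∀ A B : F[X], A.degree < (4 * d : ℕ) → B.degree < (6 * d : ℕ) →
      ∀ D : F[X][X], NotSquare D m (κ * N) → (∀ i : ℕ, (D.coeff i).natDegree ≤ δ) → ∀ R : ℕ, 1 ≤ R →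
        (largeRank A B D N (28 * (d + δ + m * N)) R).Finite ∧
        ((largeRank A B D N (28 * (d + δ + m * N)) R).ncard : ℝ) ≤
          K * (R : ℝ) ^ (-(k * R)) * (Nat.card F : ℝ) ^ N := by
  classical
  refine ⟨?_, ?_⟩
  · intro g m hg hm κ hκ
    obtain ⟨c, K, hc, hK, h⟩ := main_gen (2 * g + 1) (2 * g) (by omega) ⟨g, rfl⟩ (by omega) hκ
      (κ₁ := (((2 * g + 1) * m : ℕ) : ℝ)) (Nat.cast_nonneg _)
    refine ⟨c, K, hc, hK, fun F _ _ h2 N hN f hf hfd D hD z hz R hR => ?_⟩
    have : Fintype F := Fintype.ofFinite F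
    have h7 := h F N hN (tw f D) (tw_fm hf hfd D) (tw_means h2 hf hfd ⟨g, rfl⟩ hD N) z hz R hR
    obtain ⟨h8, h9⟩ := ncard_of (manyG F N (tw f D) (2 * g) κ z R) (manyZeros f D g κ N z R) (by
      rintro c ⟨h3, E, hE⟩
      exact ⟨⟨c, mem_degreeLT.2 h3⟩, sub_many (G := tw f D) h3 E hE, rfl⟩)
    refine ⟨h8, ?_⟩
    rw [Nat.card_eq_fintype_card]
    refine le_trans ?_ h7
    exact_mod_cast h9
  · intro m hm κ hκ
    have hm1 : (1 : ℝ) ≤ m := by exact_mod_cast hm
    obtain ⟨κ', hκ'⟩ : ∃ κ' : ℝ, κ' = 28 * (2 * κ + m) := ⟨_, rfl⟩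
    have hκ1 : 1 ≤ κ' := by linarith
    have hκκ : κ ≤ κ' := by linarith
    obtain ⟨c, K, hc, hK, h⟩ := main_gen 3 2 (by omega) (by decide) (by omega) hκ1
      (κ₁ := ((3 * m : ℕ) : ℝ)) (Nat.cast_nonneg _)
    refine ⟨c, K, hc, hK, fun F _ _ h2 N d δ hN hd hδ A B hA hB D hD hDδ R hR => ?_⟩
    have : Fintype F := Fintype.ofFinite F
    have hNr : (1 : ℝ) ≤ N := by exact_mod_cast hN
    have hBB : κ * N ≤ κ' * N := mul_le_mul_of_nonneg_right hκκ (by linarith)
    have hD' : NS D m (κ' * N) := by
      rcases hD with ⟨a, b, c⟩ | ⟨a, h, r, j, h1, h2, h3, h4, h5, h6⟩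
      · exact Or.inl ⟨a, b, c.trans hBB⟩
      · exact Or.inr ⟨a, h, r, j, h1, h2, h3, h4, h5, h6.trans hBB⟩
    obtain ⟨c1, c2⟩ := cubic_deg A B
    have h7 := h F N hN (tw (X ^ 3 + C A * X + C B) D) (tw_fm c1 c2 D)
      (tw_means h2 c1 c2 (by decide) hD' N) 1 (by simp) R hR
    obtain ⟨h8, h9⟩ := ncard_of (manyG F N (tw (X ^ 3 + C A * X + C B) D) 2 κ' 1 R)
      (largeRank A B D N (28 * (d + δ + m * N)) R) (by
      rintro c ⟨h3, E, hE⟩
      refine ⟨⟨c, mem_degreeLT.2 h3⟩, ?_, rfl⟩
      have hKle : 28 * ((d : ℝ) + δ + m * N) ≤ κ' * N := by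
        rw [hκ']
        nlinarith
      -- transport of the data
      have key : ∀ f' : F[X][X], X ^ 3 + C (A * D.eval c ^ 2) * X + C (B * D.eval c ^ 3) = f' →
          ∃ E' : FrobeniusData f' 1 (κ' * N), R ≤ {i | E'.α i = Nat.card F}.ncard := by
        rintro f' rfl
        exact ⟨{ E with size := ⟨E.size.1.trans hKle, E.size.2.1.trans hKle, E.size.2.2.trans hKle⟩ }, hE⟩
      obtain ⟨E', hE'⟩ := key (tw (X ^ 3 + C A * X + C B) D c) (cubic_tw A B (D.eval c)).symm
      have h10 := sub_many (G := tw (X ^ 3 + C A * X + C B) D) (g := 1) (κ := κ') (z := 1) (R := R) h3 E' (by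
        refine hE'.trans (Set.ncard_le_ncard (fun i hi => ?_) (Set.toFinite _))
        have hi' : E'.α i = Nat.card F := hi
        have hq : (Nat.card F : ℂ) ≠ 0 := by
          rw [Nat.card_eq_fintype_card]
          exact_mod_cast Fintype.card_ne_zero
        rw [Set.mem_ofPred_eq, hi', div_self hq, sub_self, norm_zero]
        positivity)
      exact h10)
    refine ⟨h8, ?_⟩
    rw [Nat.card_eq_fintype_card]
    refine le_trans ?_ h7
    exact_mod_cast h9

end Pool.Agent.Results.MP_81dc49_nt.QuadraticTwists
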